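import Pool.Agent.KS6_47.HBt.Geom

/-!
# Bad triangles in normed spaces: the dimension dichotomy
-/

set_option autoImplicit false

namespace Pool.Agent.Results.MP_8cfbc5_co.DimensionDichotomy

open Finset Pool.Agent.KS6_47.HBt

universe u

/-- Three points form a bad triangle for `δ`: two of the three distances are at most `1` and the
remaining one is at least `1 + δ`. -/
def BadTriangle {X : Type u} [NormedAddCommGroup X] (δ : ℝ) (a b c : X) : Prop :=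
  (dist a b ≤ 1 ∧ dist b c ≤ 1 ∧ 1 + δ ≤ dist a c) ∨
  (dist b c ≤ 1 ∧ dist a c ≤ 1 ∧ 1 + δ ≤ dist a b) ∨
  (dist a b ≤ 1 ∧ dist a c ≤ 1 ∧ 1 + δ ≤ dist b c)

/-- Property `P(δ)` for the normed space `X`: there is `l > 0` such that among any `n ≥ 1` points of
`X` (given with indices, repetitions allowed) there are at least `l * n` indices no three distinct
ones of which give a bad triangle. -/
def PropertyP (X : Type u) [NormedAddCommGroup X] (δ : ℝ) : Prop :=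
  ∃ l : ℝ, 0 < l ∧ ∀ n : ℕ, 1 ≤ n → ∀ x : Fin n → X, ∃ I : Finset (Fin n),
    l * n ≤ I.card ∧ ∀ i ∈ I, ∀ j ∈ I, ∀ k ∈ I, i ≠ j → j ≠ k → i ≠ k →
      ¬ BadTriangle δ (x i) (x j) (x k)

/-- The real Hilbert space `ℓ²`. -/
abbrev Hilb : Type := lp (fun _ : ℕ => ℝ) 2

/-! ### Finite dimensional spaces -/

/-- In a finite dimensional normed space there is a finite colouring for which being at distance at
most one is a transitive relation on each colour class. -/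
lemma exists_colouring (X : Type u) [NormedAddCommGroup X] [NormedSpace ℝ X]
    [FiniteDimensional ℝ X] : ∃ (K : Type) (_ : Fintype K) (_ : Nonempty K) (c : X → K),
      ∀ x y z : X, c x = c y → c y = c z → dist x y ≤ 1 → dist y z ≤ 1 → dist x z ≤ 1 := by
  classical
  obtain ⟨e⟩ : Nonempty (X ≃L[ℝ] (Fin (Module.finrank ℝ X) → ℝ)) :=
    ⟨ContinuousLinearEquiv.ofFinrankEq (by simp)⟩
  set A : ℝ := ‖(e : X →L[ℝ] (Fin (Module.finrank ℝ X) → ℝ))‖ with hA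
  set B : ℝ := ‖(e.symm : (Fin (Module.finrank ℝ X) → ℝ) →L[ℝ] X)‖ with hB
  have hA0 : 0 ≤ A := norm_nonneg _
  have hB0 : 0 ≤ B := norm_nonneg _
  obtain ⟨w, hw0, hw⟩ : ∃ w : ℝ, 0 < w ∧ B * w ≤ 1 := by
    refine ⟨1 / (B + 1), by positivity, ?_⟩
    rw [mul_one_div, div_le_one (by positivity)]
    linarith
  obtain ⟨N, hN⟩ := exists_nat_gt (A / w + 1)
  have hN0 : (0 : ℝ) < N := lt_trans (by positivity) hN
  have hN1 : 0 < N := by exact_mod_cast hN0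
  haveI : NeZero N := ⟨hN1.ne'⟩
  -- equal colours and distance at most one give equal cells
  have key : ∀ x y : X, (fun i => ((⌊e x i / w⌋ : ℤ) : ZMod N)) =
      (fun i => ((⌊e y i / w⌋ : ℤ) : ZMod N)) → dist x y ≤ 1 →
      ∀ i, ⌊e x i / w⌋ = ⌊e y i / w⌋ := by
    intro x y hc hd i
    have h1 : |e x i - e y i| ≤ A := by
      have h2 : ‖e (x - y)‖ ≤ A * ‖x - y‖ :=
        (e : X →L[ℝ] (Fin (Module.finrank ℝ X) → ℝ)).le_opNorm (x - y)
      have h3 : ‖x - y‖ ≤ 1 := by rwa [← dist_eq_norm]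
      have h4 : ‖(e (x - y)) i‖ ≤ ‖e (x - y)‖ := norm_le_pi_norm _ i
      rw [map_sub, Pi.sub_apply, Real.norm_eq_abs] at h4
      calc |e x i - e y i| ≤ ‖e x - e y‖ := h4
        _ = ‖e (x - y)‖ := by rw [map_sub]
        _ ≤ A * ‖x - y‖ := h2
        _ ≤ A * 1 := by gcongr
        _ = A := mul_one A
    have h2 : |e x i / w - e y i / w| ≤ A / w := by
      rw [← sub_div, abs_div, abs_of_pos hw0]
      gcongr
    have h3 : ((⌊e x i / w⌋ : ℤ) : ZMod N) = ((⌊e y i / w⌋ : ℤ) : ZMod N) := congrFun hc i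
    rw [ZMod.intCast_eq_intCast_iff_dvd_sub] at h3
    have a1 := Int.floor_le (e x i / w)
    have a2 := Int.lt_floor_add_one (e x i / w)
    have b1 := Int.floor_le (e y i / w)
    have b2 := Int.lt_floor_add_one (e y i / w)
    rw [abs_le] at h2
    have h4 : |((⌊e y i / w⌋ - ⌊e x i / w⌋ : ℤ) : ℝ)| < N := by
      rw [abs_lt]
      push_cast
      constructor <;> linarith
    have h5 : |⌊e y i / w⌋ - ⌊e x i / w⌋| < (N : ℤ) := by exact_mod_cast h4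
    have h6 := Int.eq_zero_of_abs_lt_dvd h3 h5
    omega
  have cell : ∀ x y : X, (∀ i, ⌊e x i / w⌋ = ⌊e y i / w⌋) → dist x y ≤ 1 := by
    intro x y h
    have h1 : ‖e x - e y‖ ≤ w := by
      rw [pi_norm_le_iff_of_nonneg hw0.le]
      intro i
      rw [Pi.sub_apply, Real.norm_eq_abs]
      have a1 := Int.floor_le (e x i / w)
      have a2 := Int.lt_floor_add_one (e x i / w)
      have b1 := Int.floor_le (e y i / w)
      have b2 := Int.lt_floor_add_one (e y i / w)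
      rw [h i] at a1 a2
      have h2 : |e x i / w - e y i / w| ≤ 1 := by
        rw [abs_le]; constructor <;> linarith
      rw [← sub_div, abs_div, abs_of_pos hw0, div_le_one hw0] at h2
      exact h2
    have h2 : ‖e.symm (e x - e y)‖ ≤ B * ‖e x - e y‖ :=
      (e.symm : (Fin (Module.finrank ℝ X) → ℝ) →L[ℝ] X).le_opNorm _
    rw [map_sub, e.symm_apply_apply, e.symm_apply_apply] at h2
    rw [dist_eq_norm]
    calc ‖x - y‖ ≤ B * ‖e x - e y‖ := h2
      _ ≤ B * w := by gcongr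
      _ ≤ 1 := hw
  refine ⟨Fin (Module.finrank ℝ X) → ZMod N, inferInstance, inferInstance,
    fun x i => ((⌊e x i / w⌋ : ℤ) : ZMod N), ?_⟩
  intro x y z hxy hyz h1 h2
  have k1 := key x y hxy h1
  have k2 := key y z hyz h2
  exact cell x z fun i => (k1 i).trans (k2 i)

/-- `P(δ)` holds for all `δ > 0` in a finite dimensional normed space; more precisely one density
works for all `δ`. -/
lemma P_finite (X : Type u) [NormedAddCommGroup X] [NormedSpace ℝ X] [FiniteDimensional ℝ X] :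
    ∃ l : ℝ, 0 < l ∧ ∀ n : ℕ, 1 ≤ n → ∀ x : Fin n → X, ∃ I : Finset (Fin n),
    l * n ≤ I.card ∧ ∀ δ : ℝ, 0 < δ → ∀ i ∈ I, ∀ j ∈ I, ∀ k ∈ I,
      ¬ BadTriangle δ (x i) (x j) (x k) := by
  classical
  obtain ⟨K, fK, nK, c, hc⟩ := exists_colouring X
  have hK : (0 : ℝ) < Fintype.card K := by exact_mod_cast Fintype.card_pos
  refine ⟨1 / Fintype.card K, by positivity, fun n _ x => ?_⟩
  obtain ⟨r, _, hr⟩ := exists_le_card_fiber_of_nsmul_le_card_of_maps_to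
    (s := (univ : Finset (Fin n))) (t := (univ : Finset K)) (f := fun i => c (x i))
    (b := (1 / Fintype.card K * n : ℝ)) (fun i _ => mem_univ _)
    univ_nonempty (by
      rw [card_univ, card_univ, Fintype.card_fin, nsmul_eq_mul]
      apply le_of_eq
      field_simp)
  refine ⟨_, hr, ?_⟩
  intro δ hδ i hi j hj k hk hbad
  have hi' := (mem_filter.1 hi).2
  have hj' := (mem_filter.1 hj).2
  have hk' := (mem_filter.1 hk).2
  rcases hbad with ⟨h1, h2, h3⟩ | ⟨h1, h2, h3⟩ | ⟨h1, h2, h3⟩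
  · have := hc _ _ _ (hi'.trans hj'.symm) (hj'.trans hk'.symm) h1 h2
    linarith
  · rw [dist_comm] at h1
    have := hc _ _ _ (hi'.trans hk'.symm) (hk'.trans hj'.symm) h2 h1
    linarith
  · rw [dist_comm] at h1
    have := hc _ _ _ (hj'.trans hi'.symm) (hi'.trans hk'.symm) h1 h2
    linarith

/-! ### Infinite dimensional inner product spaces -/

section inner

variable {X : Type u} [NormedAddCommGroup X] [InnerProductSpace ℝ X]

lemma exists_orthonormal (hX : ¬ FiniteDimensional ℝ X) (ι : Type) [Fintype ι] :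
    ∃ e : ι → X, Orthonormal ℝ e := by
  classical
  let b := Module.Basis.ofVectorSpace ℝ X
  have hinf : Infinite (Module.Basis.ofVectorSpaceIndex ℝ X) := by
    by_contra h
    rw [not_infinite_iff_finite] at h
    exact hX (Module.Finite.of_basis b)
  let g : Fin (Fintype.card ι) ↪ Module.Basis.ofVectorSpaceIndex ℝ X :=
    (Fin.valEmbedding).trans (Infinite.natEmbedding _)
  have hli : LinearIndependent ℝ (fun i => b (g i)) :=
    b.linearIndependent.comp g g.injective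
  have ho := InnerProductSpace.gramSchmidtNormed_orthonormal (𝕜 := ℝ) hli
  exact ⟨_, ho.comp (Fintype.equivFin ι) (Fintype.equivFin ι).injective⟩

lemma exists_M {κ : ℝ} (hκ : 0 < κ) : ∃ M : ℕ, ∃ _ : NeZero M, 2 ≤ M ∧
    4 - κ ≤ ‖(ZMod.stdAddChar (1 : ZMod M) : ℂ) + 1‖ ^ 2 := by
  have hc : Filter.Tendsto (fun n : ℕ => ‖Complex.exp (2 * Real.pi * Complex.I * (((n : ℝ)⁻¹ : ℝ) : ℂ)) + 1‖ ^ 2)
      Filter.atTop (nhds (‖Complex.exp (2 * Real.pi * Complex.I * ((0 : ℝ) : ℂ)) + 1‖ ^ 2)) := by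
    have h1 : Continuous (fun t : ℝ => ‖Complex.exp (2 * Real.pi * Complex.I * ((t : ℝ) : ℂ)) + 1‖ ^ 2) := by
      fun_prop
    exact (h1.tendsto 0).comp tendsto_inv_atTop_nhds_zero_nat
  have h4 : ‖Complex.exp (2 * Real.pi * Complex.I * ((0 : ℝ) : ℂ)) + 1‖ ^ 2 = 4 := by
    simp
    norm_num
  rw [h4] at hc
  have h2 : ∀ᶠ n : ℕ in Filter.atTop, 4 - κ ≤
      ‖Complex.exp (2 * Real.pi * Complex.I * (((n : ℝ)⁻¹ : ℝ) : ℂ)) + 1‖ ^ 2 :=
    hc.eventually_const_le (by linarith)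
  obtain ⟨n, hn, hn2⟩ := (h2.and (Filter.eventually_ge_atTop 2)).exists
  refine ⟨n, ⟨by omega⟩, hn2, ?_⟩
  have : NeZero n := ⟨by omega⟩
  have h5 := ZMod.stdAddChar_coe (N := n) (1 : ℤ)
  rw [Int.cast_one] at h5
  rw [h5]
  convert hn using 5
  push_cast
  ring

/-- The negative part. -/
lemma not_P (hX : ¬ FiniteDimensional ℝ X) {δ : ℝ} (h0 : 0 < δ) (h1 : δ < 1) :
    ¬ PropertyP X δ := by
  rintro ⟨l, hl, hP⟩
  set κ : ℝ := (4 - (1 + δ) ^ 2) / 9 with hκdef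
  have hκ : 0 < κ := by rw [hκdef]; nlinarith
  have hκ1 : κ < 1 / 2 := by rw [hκdef]; nlinarith
  obtain ⟨M, hne, hM, hMc⟩ := exists_M hκ
  obtain ⟨k, hk⟩ := exists_nat_gt (2 / (κ * l))
  obtain ⟨N, hN⟩ := exists_nat_gt (4 / (κ ^ 2 * l ^ 2))
  have hk0 : (0 : ℝ) < k := lt_trans (by positivity) hk
  have hN0 : (0 : ℝ) < N := lt_trans (by positivity) hN
  have hkk : 2 ≤ κ * l * k := by
    rw [div_lt_iff₀ (by positivity)] at hk
    linarith
  have hNN : 4 < κ ^ 2 * l ^ 2 * N := by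
    rw [div_lt_iff₀ (by positivity)] at hN
    linarith
  have hk1 : 0 < k := by exact_mod_cast hk0
  have hN1 : 0 < N := by exact_mod_cast hN0
  have hphi := phi_one_pos (M := M) hM
  have hpos : 0 < 2 * N * phi (1 : ZMod M) := by positivity
  obtain ⟨e, he⟩ := exists_orthonormal hX ((Fin N × Fin k) × Fin 2)
  have hMM : (1 + δ) ^ 2 ≤ (1 - 2 * κ) * ‖(ZMod.stdAddChar (1 : ZMod M) : ℂ) + 1‖ ^ 2 := by
    have h2 : (1 - 2 * κ) * (4 - κ) ≤ (1 - 2 * κ) * ‖(ZMod.stdAddChar (1 : ZMod M) : ℂ) + 1‖ ^ 2 :=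
      mul_le_mul_of_nonneg_left hMc (by linarith)
    have h3 : (1 + δ) ^ 2 = 4 - 9 * κ := by rw [hκdef]; ring
    nlinarith
  let G := Fin N × Fin k → ZMod M
  let eq := Fintype.equivFin G
  have hcard : 1 ≤ Fintype.card G := Fintype.card_pos
  obtain ⟨I, hI, hbad⟩ := hP (Fintype.card G) hcard
    (fun i => pnt (√(2 * N * phi (1 : ZMod M)))⁻¹ e (eq.symm i))
  obtain ⟨y, hy, x, hx, z, hz, d1, d2, d3⟩ := find (δ := δ) (H := X) hM hN1 hk1 hκ hκ1 hl (by linarith) hkk hNN hMM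
    (ρ := (√(2 * N * phi (1 : ZMod M)))⁻¹) (by positivity)
    (by rw [inv_pow, Real.sq_sqrt hpos.le]; exact inv_mul_cancel₀ hpos.ne') he
    (I.map eq.symm.toEmbedding) (by rw [card_map]; exact hI)
  obtain ⟨i, hi, rfl⟩ := mem_map.1 hy
  obtain ⟨j, hj, rfl⟩ := mem_map.1 hx
  obtain ⟨m, hm, rfl⟩ := mem_map.1 hz
  have hji : j ≠ i := by
    rintro rfl
    linarith
  have him : i ≠ m := by
    rintro rfl
    rw [dist_comm] at d3
    linarith
  have hjm : j ≠ m := by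
    rintro rfl
    rw [dist_self] at d3
    linarith
  refine hbad j hj i hi m hm hji him hjm (Or.inl ⟨?_, d2, d3⟩)
  rw [dist_comm]
  exact d1

/-- in the extreme case the middle point is the midpoint -/
lemma midpoint_norm {a b c : X} (h1 : dist a b ≤ 1) (h2 : dist b c ≤ 1) (h3 : 2 ≤ dist a c) :
    ‖a‖ ^ 2 + ‖c‖ ^ 2 - 2 * ‖b‖ ^ 2 = 2 := by
  rw [dist_eq_norm] at h1 h2 h3
  have e1 : ‖(a - b) + (b - c)‖ ^ 2 + ‖(a - b) - (b - c)‖ ^ 2 = 2 * (‖a - b‖ ^ 2 + ‖b - c‖ ^ 2) := by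
    have := parallelogram_law_with_norm ℝ (a - b) (b - c)
    nlinarith
  have e2 : (a - b) + (b - c) = a - c := by abel
  rw [e2] at e1
  have h4 : 4 ≤ ‖a - c‖ ^ 2 := by nlinarith
  have h5 : ‖a - b‖ ^ 2 ≤ 1 := by nlinarith [norm_nonneg (a - b)]
  have h6 : ‖b - c‖ ^ 2 ≤ 1 := by nlinarith [norm_nonneg (b - c)]
  have h7 : ‖(a - b) - (b - c)‖ ^ 2 = 0 := by
    have := sq_nonneg ‖(a - b) - (b - c)‖
    linarith
  have h8 : (a - b) - (b - c) = 0 := by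
    rw [← norm_eq_zero]
    exact pow_eq_zero_iff (two_ne_zero) |>.1 h7
  have h9 : ‖a - b‖ ^ 2 = 1 := by
    rw [h7] at e1
    linarith
  obtain ⟨u, rfl⟩ : ∃ u, a = b + u := ⟨a - b, by abel⟩
  have hc : c = b - u := by
    have : b + u - b - (b - c) = 0 := h8
    have h10 : c = b - u + ((b + u - b) - (b - c)) := by abel
    rw [h10, this, add_zero]
  subst hc
  have h11 : ‖u‖ ^ 2 = 1 := by simpa using h9
  have := parallelogram_law_with_norm ℝ b u
  nlinarith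

lemma no_bad_mod {a b c : X} (hab : ⌊‖a‖ ^ 2⌋ % 4 = ⌊‖b‖ ^ 2⌋ % 4)
    (hbc : ⌊‖b‖ ^ 2⌋ % 4 = ⌊‖c‖ ^ 2⌋ % 4)
    (h1 : dist a b ≤ 1) (h2 : dist b c ≤ 1) (h3 : 2 ≤ dist a c) : False := by
  have h := midpoint_norm h1 h2 h3
  have a1 := Int.floor_le (‖a‖ ^ 2)
  have a2 := Int.lt_floor_add_one (‖a‖ ^ 2)
  have b1 := Int.floor_le (‖b‖ ^ 2)
  have b2 := Int.lt_floor_add_one (‖b‖ ^ 2)
  have c1 := Int.floor_le (‖c‖ ^ 2)
  have c2 := Int.lt_floor_add_one (‖c‖ ^ 2)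
  have l1 : (0 : ℝ) < ((⌊‖a‖ ^ 2⌋ + ⌊‖c‖ ^ 2⌋ - 2 * ⌊‖b‖ ^ 2⌋ : ℤ) : ℝ) := by
    push_cast; linarith
  have l2 : ((⌊‖a‖ ^ 2⌋ + ⌊‖c‖ ^ 2⌋ - 2 * ⌊‖b‖ ^ 2⌋ : ℤ) : ℝ) < 4 := by
    push_cast; linarith
  have l1' : 0 < ⌊‖a‖ ^ 2⌋ + ⌊‖c‖ ^ 2⌋ - 2 * ⌊‖b‖ ^ 2⌋ := by exact_mod_cast l1
  have l2' : ⌊‖a‖ ^ 2⌋ + ⌊‖c‖ ^ 2⌋ - 2 * ⌊‖b‖ ^ 2⌋ < 4 := by exact_mod_cast l2
  omega

/-- The positive part. -/
lemma P_one : PropertyP X 1 := by
  refine ⟨1 / 4, by norm_num, fun n _ x => ?_⟩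
  obtain ⟨r, _, hr⟩ := exists_le_card_fiber_of_nsmul_le_card_of_maps_to
    (s := (univ : Finset (Fin n))) (t := (Finset.Ico (0 : ℤ) 4)) (f := fun i => ⌊‖x i‖ ^ 2⌋ % 4)
    (b := (1 / 4 * n : ℝ)) (fun i _ => by
      rw [mem_Ico]
      exact ⟨Int.emod_nonneg _ (by norm_num), Int.emod_lt_of_pos _ (by norm_num)⟩)
    ⟨0, by simp⟩ (by simp)
  refine ⟨_, hr, ?_⟩
  intro i hi j hj k hk _ _ _ hbad
  have hi' := (mem_filter.1 hi).2
  have hj' := (mem_filter.1 hj).2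
  have hk' := (mem_filter.1 hk).2
  rcases hbad with ⟨h1, h2, h3⟩ | ⟨h1, h2, h3⟩ | ⟨h1, h2, h3⟩
  · exact no_bad_mod (hi'.trans hj'.symm) (hj'.trans hk'.symm) h1 h2 (by linarith)
  · rw [dist_comm] at h1
    exact no_bad_mod (hi'.trans hk'.symm) (hk'.trans hj'.symm) h2 h1 (by linarith)
  · rw [dist_comm] at h1
    exact no_bad_mod (hj'.trans hi'.symm) (hi'.trans hk'.symm) h1 h2 (by linarith)

omit [InnerProductSpace ℝ X] in
lemma P_mono {δ δ' : ℝ} (h : δ ≤ δ') (hP : PropertyP X δ) : PropertyP X δ' := by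
  obtain ⟨l, hl, hP⟩ := hP
  refine ⟨l, hl, fun n hn x => ?_⟩
  obtain ⟨I, hI, hbad⟩ := hP n hn x
  refine ⟨I, hI, fun i hi j hj k hk h1 h2 h3 hb => hbad i hi j hj k hk h1 h2 h3 ?_⟩
  rcases hb with ⟨h1, h2, h3⟩ | ⟨h1, h2, h3⟩ | ⟨h1, h2, h3⟩
  · exact Or.inl ⟨h1, h2, by linarith⟩
  · exact Or.inr (Or.inl ⟨h1, h2, by linarith⟩)
  · exact Or.inr (Or.inr ⟨h1, h2, by linarith⟩)

lemma P_iff (hX : ¬ FiniteDimensional ℝ X) {δ : ℝ} (h0 : 0 < δ) : PropertyP X δ ↔ 1 ≤ δ := by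
  constructor
  · intro h
    by_contra h1
    exact not_P hX h0 (not_le.1 h1) h
  · intro h
    exact P_mono h P_one

end inner

lemma hilb_infinite : ¬ FiniteDimensional ℝ Hilb := by
  intro h
  have ho : Orthonormal ℝ (fun n : ℕ => (lp.single 2 n (1 : ℝ) : Hilb)) := by
    rw [orthonormal_iff_ite]
    intro i j
    rw [lp.inner_single_left]
    by_cases h : i = j
    · subst h
      simp
    · rw [if_neg h]
      simp [lp.single_apply, h]
  exact not_finite_iff_infinite.2 inferInstance ho.linearIndependent.finite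

/-- **Bad triangles: the dimension dichotomy.**
(1) In every finite dimensional real normed space `P(δ)` holds for all `δ > 0`, even with one and
the same density and one and the same subset for all `δ > 0`.
(2) In every real inner product space (complete or not) `P(1)` holds, with density `1/4`.
(3) In every infinite dimensional real inner product space, for `δ > 0`, the property `P(δ)` holds
if and only if `δ ≥ 1`.
(4) So a real inner product space is finite dimensional if and only if `P(δ)` holds for all `δ > 0`,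
and if and only if `P(δ)` holds for one `δ ∈ (0, 1)`.
(5) (Q1) For `ℓ²` the supremum of all `δ` for which `P(δ)` fails is `1`, and it is not attained. -/
theorem result :
    (∀ (X : Type u) [NormedAddCommGroup X] [NormedSpace ℝ X] [FiniteDimensional ℝ X],
      (∃ l : ℝ, 0 < l ∧ ∀ n : ℕ, 1 ≤ n → ∀ x : Fin n → X, ∃ I : Finset (Fin n),
        l * n ≤ I.card ∧ ∀ δ : ℝ, 0 < δ → ∀ i ∈ I, ∀ j ∈ I, ∀ k ∈ I,
          ¬ BadTriangle δ (x i) (x j) (x k)) ∧ ∀ δ : ℝ, 0 < δ → PropertyP X δ) ∧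
    (∀ (X : Type u) [NormedAddCommGroup X] [InnerProductSpace ℝ X], PropertyP X 1) ∧
    (∀ (X : Type u) [NormedAddCommGroup X] [InnerProductSpace ℝ X], ¬ FiniteDimensional ℝ X →
      ∀ δ : ℝ, 0 < δ → (PropertyP X δ ↔ 1 ≤ δ)) ∧
    (∀ (X : Type u) [NormedAddCommGroup X] [InnerProductSpace ℝ X],
      (FiniteDimensional ℝ X ↔ ∀ δ : ℝ, 0 < δ → PropertyP X δ) ∧
      (FiniteDimensional ℝ X ↔ ∃ δ : ℝ, 0 < δ ∧ δ < 1 ∧ PropertyP X δ)) ∧
    (IsLUB {δ : ℝ | 0 < δ ∧ ¬ PropertyP Hilb δ} 1 ∧ PropertyP Hilb 1 ∧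
      ∀ δ : ℝ, 0 < δ → (PropertyP Hilb δ ↔ 1 ≤ δ)) := by
  have hfin : ∀ (X : Type u) [NormedAddCommGroup X] [NormedSpace ℝ X] [FiniteDimensional ℝ X],
      (∃ l : ℝ, 0 < l ∧ ∀ n : ℕ, 1 ≤ n → ∀ x : Fin n → X, ∃ I : Finset (Fin n),
        l * n ≤ I.card ∧ ∀ δ : ℝ, 0 < δ → ∀ i ∈ I, ∀ j ∈ I, ∀ k ∈ I,
          ¬ BadTriangle δ (x i) (x j) (x k)) ∧ ∀ δ : ℝ, 0 < δ → PropertyP X δ := by
    intro X _ _ _
    obtain ⟨l, hl, h⟩ := P_finite X
    refine ⟨⟨l, hl, h⟩, fun δ hδ => ⟨l, hl, fun n hn x => ?_⟩⟩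
    obtain ⟨I, hI, hb⟩ := h n hn x
    exact ⟨I, hI, fun i hi j hj k hk _ _ _ => hb δ hδ i hi j hj k hk⟩
  have key : ∀ δ : ℝ, 0 < δ → (PropertyP Hilb δ ↔ 1 ≤ δ) := fun δ hδ => P_iff hilb_infinite hδ
  refine ⟨hfin, fun X _ _ => P_one, fun X _ _ hX δ hδ => P_iff hX hδ, ?_, ⟨?_, ?_⟩, P_one, key⟩
  · intro X _ _
    refine ⟨⟨fun h δ hδ => (hfin X).2 δ hδ, fun h => ?_⟩,
      ⟨fun h => ⟨1 / 2, by norm_num, by norm_num, (hfin X).2 _ (by norm_num)⟩, ?_⟩⟩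
    · by_contra hX
      exact not_P hX (by norm_num : (0 : ℝ) < 1 / 2) (by norm_num) (h _ (by norm_num))
    · rintro ⟨δ, h0, h1, h⟩
      by_contra hX
      exact not_P hX h0 h1 h
  · rintro δ ⟨h0, h1⟩
    by_contra h2
    exact h1 ((key δ h0).2 (not_le.1 h2).le)
  · intro b hb
    by_contra h
    push Not at h
    have h2 : max (1 / 2) ((1 + b) / 2) ∈ {δ : ℝ | 0 < δ ∧ ¬ PropertyP Hilb δ} := by
      have hlt : max (1 / 2) ((1 + b) / 2) < 1 := max_lt (by norm_num) (by linarith)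
      have hpos : 0 < max (1 / 2) ((1 + b) / 2) := lt_max_of_lt_left (by norm_num)
      exact ⟨hpos, not_P hilb_infinite hpos hlt⟩
    have h3 := hb h2
    have h4 := le_max_right (1 / 2) ((1 + b) / 2)
    linarith

end Pool.Agent.Results.MP_8cfbc5_co.DimensionDichotomy
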